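import Mathlib

set_option autoImplicit false

namespace Pool.Agent.Results.MP_9c9d6b_nt.NonReciprocal

open Polynomial

/-- The remainders of the greedy expansion of `1`: `r₀ = 1`, `r_{n+1} = β r_n - ⌊β r_n⌋`. -/
noncomputable def rem (β : ℝ) : ℕ → ℝ
  | 0 => 1
  | n + 1 => β * rem β n - ⌊β * rem β n⌋

/-- The digits `c_n = ⌊β r_{n-1}⌋`, for `n ≥ 1`. -/
noncomputable def dig (β : ℝ) (n : ℕ) : ℤ := ⌊β * rem β (n - 1)⌋

/-- `c_{n+m} = c_{n+m+p}` for all `n ≥ 1`, with `p ≥ 1`. -/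
def PeriodicFrom (β : ℝ) (m p : ℕ) : Prop :=
  1 ≤ p ∧ ∀ n : ℕ, 1 ≤ n → dig β (n + m) = dig β (n + m + p)

/-- `m` and `p` are the least possible preperiod and period lengths. -/
def HasLengths (β : ℝ) (m p : ℕ) : Prop :=
  PeriodicFrom β m p ∧ ∀ m' p' : ℕ, PeriodicFrom β m' p' → m ≤ m' ∧ p ≤ p'

/-- Salem numbers. -/
structure IsSalem (β : ℝ) : Prop where
  one_lt : 1 < β
  integral : IsIntegral ℤ β
  conj_le : ∀ z : ℂ, aeval z (minpoly ℚ β) = 0 → z ≠ (β : ℂ) → ‖z‖ ≤ 1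
  conj_eq : ∃ z : ℂ, aeval z (minpoly ℚ β) = 0 ∧ ‖z‖ = 1

/-- `P_k(x) = x^k - c₁ x^{k-1} - ... - c_k`. -/
noncomputable def Pk (β : ℝ) (k : ℕ) : ℤ[X] :=
  X ^ k - ∑ i ∈ Finset.Icc 1 k, C (dig β i) * X ^ (k - i)

/-- The companion polynomial `R = P_{m+p} - P_m`. -/
noncomputable def companion (β : ℝ) (m p : ℕ) : ℤ[X] := Pk β (m + p) - Pk β m

/-! ### The Salem number -/

/-- the minimal polynomial -/
noncomputable def P : ℤ[X] := X ^ 6 - 10 * X ^ 5 - 6 * X ^ 4 + 3 * X ^ 3 - 6 * X ^ 2 - 10 * X + 1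

lemma P_monic : P.Monic := by unfold P; monicity!

lemma P_natDegree : P.natDegree = 6 := by unfold P; compute_degree!

/-- the reduction of `P` modulo `2` -/
noncomputable def P2 : (ZMod 2)[X] := X ^ 6 + X ^ 3 + 1

lemma P_map : P.map (Int.castRingHom (ZMod 2)) = P2 := by
  unfold P P2
  simp only [Polynomial.map_sub, Polynomial.map_add, Polynomial.map_mul, Polynomial.map_pow,
    Polynomial.map_X, Polynomial.map_one, Polynomial.map_ofNat]
  have h10 : (10 : (ZMod 2)[X]) = 0 := by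
    rw [show (10 : (ZMod 2)[X]) = C 10 from rfl, show (10 : ZMod 2) = 0 from rfl, C_0]
  have h6 : (6 : (ZMod 2)[X]) = 0 := by
    rw [show (6 : (ZMod 2)[X]) = C 6 from rfl, show (6 : ZMod 2) = 0 from rfl, C_0]
  have h3 : (3 : (ZMod 2)[X]) = 1 := by
    rw [show (3 : (ZMod 2)[X]) = C 3 from rfl, show (3 : ZMod 2) = 1 from rfl, C_1]
  rw [h10, h6, h3]; ring

lemma P2_monic : P2.Monic := by unfold P2; monicity!

lemma P2_natDegree : P2.natDegree = 6 := by unfold P2; compute_degree!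

lemma coeff_P2 (n : ℕ) : P2.coeff n = if n = 0 ∨ n = 3 ∨ n = 6 then 1 else 0 := by
  unfold P2
  simp only [coeff_add, coeff_X_pow, coeff_one]
  rcases Nat.lt_or_ge n 7 with h | h
  · interval_cases n <;> simp
  · have h0 : n ≠ 0 := by omega
    have h3 : n ≠ 3 := by omega
    have h6 : n ≠ 6 := by omega
    simp [h0, h3, h6]

lemma dec1 : ∀ p : (Fin 5 → ZMod 2) × (Fin 1 → ZMod 2),
    ¬ (p.1 0 * p.2 0 = 1 ∧ p.1 0 + p.1 1 * p.2 0 = 0 ∧ p.1 1 + p.1 2 * p.2 0 = 0 ∧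
      p.1 2 + p.1 3 * p.2 0 = 1 ∧ p.1 3 + p.1 4 * p.2 0 = 0 ∧ p.1 4 + p.2 0 = 0) := by
  decide +kernel

lemma dec2 : ∀ p : (Fin 4 → ZMod 2) × (Fin 2 → ZMod 2),
    ¬ (p.1 0 * p.2 0 = 1 ∧ p.1 0 * p.2 1 + p.1 1 * p.2 0 = 0 ∧
      p.1 0 + p.1 1 * p.2 1 + p.1 2 * p.2 0 = 0 ∧ p.1 1 + p.1 2 * p.2 1 + p.1 3 * p.2 0 = 1 ∧
      p.1 2 + p.1 3 * p.2 1 + p.2 0 = 0 ∧ p.1 3 + p.2 1 = 0) := by
  decide +kernel

lemma dec3 : ∀ p : (Fin 3 → ZMod 2) × (Fin 3 → ZMod 2),
    ¬ (p.1 0 * p.2 0 = 1 ∧ p.1 0 * p.2 1 + p.1 1 * p.2 0 = 0 ∧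
      p.1 0 * p.2 2 + p.1 1 * p.2 1 + p.1 2 * p.2 0 = 0 ∧
      p.1 0 + p.1 1 * p.2 2 + p.1 2 * p.2 1 + p.2 0 = 1 ∧
      p.1 1 + p.1 2 * p.2 2 + p.2 1 = 0 ∧ p.1 2 + p.2 2 = 0) := by
  decide +kernel

lemma P2_irreducible : Irreducible P2 := by
  rw [P2_monic.irreducible_iff_natDegree']
  refine ⟨fun h => ?_, ?_⟩
  · have := P2_natDegree
    rw [h] at this
    simp at this
  intro f g hf hg hfg hmem
  rw [P2_natDegree, Finset.mem_Ioc] at hmem
  have hdeg : f.natDegree + g.natDegree = 6 := by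
    rw [← hf.natDegree_mul hg, hfg, P2_natDegree]
  have hc : ∀ n, (f * g).coeff n = if n = 0 ∨ n = 3 ∨ n = 6 then 1 else 0 := by
    intro n; rw [hfg, coeff_P2]
  have hcf : ∀ n, f.natDegree < n → f.coeff n = 0 := fun n hn => coeff_eq_zero_of_natDegree_lt hn
  have hcg : ∀ n, g.natDegree < n → g.coeff n = 0 := fun n hn => coeff_eq_zero_of_natDegree_lt hn
  have hlf : f.coeff f.natDegree = 1 := hf.coeff_natDegree
  have hlg : g.coeff g.natDegree = 1 := hg.coeff_natDegree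
  have h0 := hc 0
  have h1 := hc 1
  have h2 := hc 2
  have h3 := hc 3
  have h4 := hc 4
  have h5 := hc 5
  simp only [coeff_mul, Finset.Nat.sum_antidiagonal_eq_sum_range_succ_mk,
    Finset.sum_range_succ, Finset.sum_range_zero, zero_add] at h0 h1 h2 h3 h4 h5
  norm_num at h0 h1 h2 h3 h4 h5
  have hg3 : g.natDegree = 1 ∨ g.natDegree = 2 ∨ g.natDegree = 3 := by omega
  rcases hg3 with hg3 | hg3 | hg3
  · have hf3 : f.natDegree = 5 := by omega
    rw [hf3] at hlf hcf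
    rw [hg3] at hlg hcg
    have g2 := hcg 2 (by norm_num)
    have g3 := hcg 3 (by norm_num)
    have g4 := hcg 4 (by norm_num)
    have g5 := hcg 5 (by norm_num)
    simp only [hlf, hlg, g2, g3, g4, g5, mul_zero, mul_one, zero_add, one_mul] at h0 h1 h2 h3 h4 h5
    refine dec1 (![f.coeff 0, f.coeff 1, f.coeff 2, f.coeff 3, f.coeff 4], ![g.coeff 0]) ?_
    exact ⟨show f.coeff 0 * g.coeff 0 = 1 by rw [h0.1, h0.2, mul_one], h1, h2, h3, h4, h5⟩
  · have hf3 : f.natDegree = 4 := by omega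
    rw [hf3] at hlf hcf
    rw [hg3] at hlg hcg
    have f5 := hcf 5 (by norm_num)
    have g3 := hcg 3 (by norm_num)
    have g4 := hcg 4 (by norm_num)
    have g5 := hcg 5 (by norm_num)
    simp only [hlf, hlg, f5, g3, g4, g5, mul_zero, zero_mul, add_zero, mul_one, zero_add, one_mul]
      at h0 h1 h2 h3 h4 h5
    refine dec2 (![f.coeff 0, f.coeff 1, f.coeff 2, f.coeff 3], ![g.coeff 0, g.coeff 1]) ?_
    exact ⟨show f.coeff 0 * g.coeff 0 = 1 by rw [h0.1, h0.2, mul_one], h1, h2, h3, h4, h5⟩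
  · have hf3 : f.natDegree = 3 := by omega
    rw [hf3] at hlf hcf
    rw [hg3] at hlg hcg
    have f4 := hcf 4 (by norm_num)
    have f5 := hcf 5 (by norm_num)
    have g4 := hcg 4 (by norm_num)
    have g5 := hcg 5 (by norm_num)
    simp only [hlf, hlg, f4, f5, g4, g5, mul_zero, zero_mul, add_zero, mul_one, zero_add, one_mul]
      at h0 h1 h2 h3 h4 h5
    refine dec3 (![f.coeff 0, f.coeff 1, f.coeff 2], ![g.coeff 0, g.coeff 1, g.coeff 2]) ?_
    exact ⟨show f.coeff 0 * g.coeff 0 = 1 by rw [h0.1, h0.2, mul_one], h1, h2, h3, h4, h5⟩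

lemma P_irreducible : Irreducible P := by
  apply P_monic.irreducible_of_irreducible_map (Int.castRingHom (ZMod 2))
  rw [P_map]; exact P2_irreducible

/-- the real number `β`, with tight bounds -/
lemma exists_beta : ∃ β : ℝ, (52738939524932927 / 5000000000000000 : ℝ) ≤ β ∧
    β ≤ (21095575809973171 / 2000000000000000 : ℝ) ∧
    β ^ 6 - 10 * β ^ 5 - 6 * β ^ 4 + 3 * β ^ 3 - 6 * β ^ 2 - 10 * β + 1 = 0 := by
  have hcont : ContinuousOn (fun x : ℝ => x ^ 6 - 10 * x ^ 5 - 6 * x ^ 4 + 3 * x ^ 3 - 6 * x ^ 2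
      - 10 * x + 1) (Set.Icc (52738939524932927 / 5000000000000000 : ℝ)
      (21095575809973171 / 2000000000000000 : ℝ)) := by fun_prop
  obtain ⟨x, hx, hx'⟩ := intermediate_value_Icc (by norm_num) hcont
    (show (0 : ℝ) ∈ Set.Icc _ _ from ⟨by norm_num, by norm_num⟩)
  exact ⟨x, hx.1, hx.2, hx'⟩

/-- evaluation of an integer vector -/
noncomputable def ev (β : ℝ) (v : Fin 6 → ℤ) : ℝ :=
  v 0 + v 1 * β + v 2 * β ^ 2 + v 3 * β ^ 3 + v 4 * β ^ 4 + v 5 * β ^ 5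

/-- next vector -/
def nxt (v : Fin 6 → ℤ) (c : ℤ) : Fin 6 → ℤ :=
  ![-v 5 - c, v 0 + 10 * v 5, v 1 + 6 * v 5, v 2 - 3 * v 5, v 3 + 6 * v 5, v 4 + 10 * v 5]

/-- the list of digits `c₁, ..., c₃₃` -/
def D : List ℤ := [10, 5, 8, 2, 1, 8, 2, 10, 2, 0, 0, 9, 5, 5, 2, 4, 8, 3, 9, 1, 7, 6, 10, 1, 10,
  2, 8, 1, 2, 8, 5, 9, 9]

/-- the vectors of the remainders -/
def VV : ℕ → Fin 6 → ℤ
  | 0 => ![1, 0, 0, 0, 0, 0]
  | n + 1 => nxt (VV n) (D.getD n 0)

/-- lower bound of `v z` for `L ≤ z ≤ U` -/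
def lb (v L U : ℤ) : ℤ := if 0 ≤ v then v * L else v * U

/-- upper bound of `v z` for `L ≤ z ≤ U` -/
def ub (v L U : ℤ) : ℤ := if 0 ≤ v then v * U else v * L

/-- lower bound of `10⁸ ev v` -/
def lbv (v : Fin 6 → ℤ) : ℤ :=
  v 0 * 100000000 + lb (v 1) 1054778790 1054778791 + lb (v 2) 11125582968 11125582969 +
  lb (v 3) 117350289474 117350289475 + lb (v 4) 1237785963969 1237785963970 +
  lb (v 5) 13055903819719 13055903819720

/-- upper bound of `10⁸ ev v` -/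
def ubv (v : Fin 6 → ℤ) : ℤ :=
  v 0 * 100000000 + ub (v 1) 1054778790 1054778791 + ub (v 2) 11125582968 11125582969 +
  ub (v 3) 117350289474 117350289475 + ub (v 4) 1237785963969 1237785963970 +
  ub (v 5) 13055903819719 13055903819720

lemma VV_check : ∀ n : Fin 33, 0 ≤ lbv (VV (n + 1)) ∧ ubv (VV (n + 1)) < 100000000 := by
  decide +kernel

lemma VV_33 : VV 33 = VV 1 := by decide +kernel

lemma le_lb {z : ℝ} {v L U : ℤ} (h1 : (L : ℝ) ≤ z) (h2 : z ≤ U) :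
    ((lb v L U : ℤ) : ℝ) ≤ v * z ∧ v * z ≤ ((ub v L U : ℤ) : ℝ) := by
  unfold lb ub
  split_ifs with h
  · have h' : (0 : ℝ) ≤ v := by exact_mod_cast h
    push_cast
    exact ⟨mul_le_mul_of_nonneg_left h1 h', mul_le_mul_of_nonneg_left h2 h'⟩
  · have h' : (v : ℝ) ≤ 0 := by
      have : v ≤ 0 := by omega
      exact_mod_cast this
    push_cast
    exact ⟨mul_le_mul_of_nonpos_left h2 h', mul_le_mul_of_nonpos_left h1 h'⟩

section beta

variable {β : ℝ} (h1 : (52738939524932927 / 5000000000000000 : ℝ) ≤ β)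
  (h2 : β ≤ (21095575809973171 / 2000000000000000 : ℝ))
  (h3 : β ^ 6 - 10 * β ^ 5 - 6 * β ^ 4 + 3 * β ^ 3 - 6 * β ^ 2 - 10 * β + 1 = 0)

include h1 h2 in
lemma pow_bounds (k : ℕ) : (52738939524932927 / 5000000000000000 : ℝ) ^ k ≤ β ^ k ∧
    β ^ k ≤ (21095575809973171 / 2000000000000000 : ℝ) ^ k :=
  ⟨pow_le_pow_left₀ (by norm_num) h1 k, pow_le_pow_left₀ (by linarith) h2 k⟩

include h1 h2 in
lemma ev_bounds (v : Fin 6 → ℤ) : ((lbv v : ℤ) : ℝ) ≤ 100000000 * ev β v ∧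
    100000000 * ev β v ≤ ((ubv v : ℤ) : ℝ) := by
  have p1 := pow_bounds h1 h2 1
  have p2 := pow_bounds h1 h2 2
  have p3 := pow_bounds h1 h2 3
  have p4 := pow_bounds h1 h2 4
  have p5 := pow_bounds h1 h2 5
  norm_num at p1 p2 p3 p4 p5
  have q1 := le_lb (z := 100000000 * β) (v := v 1) (L := 1054778790) (U := 1054778791)
    (by push_cast; linarith [p1.1]) (by push_cast; linarith [p1.2])
  have q2 := le_lb (z := 100000000 * β ^ 2) (v := v 2) (L := 11125582968) (U := 11125582969)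
    (by push_cast; linarith [p2.1]) (by push_cast; linarith [p2.2])
  have q3 := le_lb (z := 100000000 * β ^ 3) (v := v 3) (L := 117350289474) (U := 117350289475)
    (by push_cast; linarith [p3.1]) (by push_cast; linarith [p3.2])
  have q4 := le_lb (z := 100000000 * β ^ 4) (v := v 4) (L := 1237785963969) (U := 1237785963970)
    (by push_cast; linarith [p4.1]) (by push_cast; linarith [p4.2])
  have q5 := le_lb (z := 100000000 * β ^ 5) (v := v 5) (L := 13055903819719)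
    (U := 13055903819720) (by push_cast; linarith [p5.1]) (by push_cast; linarith [p5.2])
  unfold lbv ubv ev
  push_cast
  constructor <;> linarith [q1.1, q1.2, q2.1, q2.2, q3.1, q3.2, q4.1, q4.2, q5.1, q5.2]

include h1 h2 in
lemma VV_range (n : ℕ) (hn : n < 33) : 0 ≤ ev β (VV (n + 1)) ∧ ev β (VV (n + 1)) < 1 := by
  obtain ⟨c1, c2⟩ := VV_check ⟨n, hn⟩
  obtain ⟨e1, e2⟩ := ev_bounds h1 h2 (VV (n + 1))
  have c1' : (0 : ℝ) ≤ ((lbv (VV (n + 1)) : ℤ) : ℝ) := by exact_mod_cast c1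
  have c2' : ((ubv (VV (n + 1)) : ℤ) : ℝ) < 100000000 := by exact_mod_cast c2
  constructor <;> linarith

include h3 in
lemma ev_nxt (v : Fin 6 → ℤ) (c : ℤ) : β * ev β v = c + ev β (nxt v c) := by
  unfold ev nxt
  simp only [Matrix.cons_val_zero, Matrix.cons_val_one, Matrix.cons_val]
  push_cast
  linear_combination (v 5 : ℝ) * h3

lemma floor_step {x y : ℝ} {c : ℤ} (h : x = c + y) (h0 : 0 ≤ y) (h1 : y < 1) :
    ⌊x⌋ = c ∧ x - ⌊x⌋ = y := by
  have : ⌊x⌋ = c := by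
    rw [Int.floor_eq_iff]
    constructor <;> linarith
  refine ⟨this, ?_⟩
  rw [this]; linarith

include h1 h2 h3 in
lemma rem_eq (n : ℕ) (hn : n ≤ 33) : rem β n = ev β (VV n) := by
  induction n with
  | zero => simp [rem, VV, ev]
  | succ n ih =>
    have ih' := ih (by omega)
    obtain ⟨r1, r2⟩ := VV_range h1 h2 n (by omega)
    have h4 := ev_nxt h3 (VV n) (D.getD n 0)
    have h5 := floor_step h4 r1 r2
    rw [rem, ih']
    exact h5.2

include h1 h2 h3 in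
lemma floor_eq (n : ℕ) (hn : n < 33) : ⌊β * rem β n⌋ = D.getD n 0 := by
  obtain ⟨r1, r2⟩ := VV_range h1 h2 n hn
  have h4 := ev_nxt h3 (VV n) (D.getD n 0)
  rw [rem_eq h1 h2 h3 n hn.le]
  exact (floor_step h4 r1 r2).1

include h1 h2 h3 in
lemma rem_periodic (n : ℕ) : rem β (n + 33) = rem β (n + 1) := by
  induction n with
  | zero =>
    rw [zero_add, zero_add, rem_eq h1 h2 h3 33 le_rfl, rem_eq h1 h2 h3 1 (by norm_num), VV_33]
  | succ n ih =>
    change β * rem β (n + 33) - ⌊β * rem β (n + 33)⌋ = β * rem β (n + 1) - ⌊β * rem β (n + 1)⌋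
    rw [ih]

include h1 h2 h3 in
lemma rem_periodic' (n k : ℕ) : rem β (n + 1 + 32 * k) = rem β (n + 1) := by
  induction k with
  | zero => simp
  | succ k ih =>
    have e1 : n + 1 + 32 * (k + 1) = (n + 32 * k) + 33 := by ring
    rw [e1, rem_periodic h1 h2 h3, ← ih]
    congr 1
    ring

include h1 h2 h3 in
/-- all digits -/
lemma dig_eq (j k : ℕ) (hj : j < 32) : dig β (j + 2 + 32 * k) = D.getD (j + 1) 0 := by
  unfold dig
  have e1 : j + 2 + 32 * k - 1 = j + 1 + 32 * k := by omega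
  rw [e1, rem_periodic' h1 h2 h3, floor_eq h1 h2 h3 _ (by omega)]

include h1 h2 h3 in
lemma dig_small (i : ℕ) (h0 : 1 ≤ i) (hi : i ≤ 33) : dig β i = D.getD (i - 1) 0 := by
  unfold dig
  rw [floor_eq h1 h2 h3 _ (by omega)]

lemma mismatch : ∀ p : Fin 31, ∃ j : Fin 32, D.getD ((j : ℕ) + 1) 0 ≠
    D.getD (((j : ℕ) + (p : ℕ) + 1) % 32 + 1) 0 := by
  decide +kernel

include h1 h2 h3 in
lemma lengths : HasLengths β 1 32 := by
  refine ⟨⟨by norm_num, ?_⟩, ?_⟩
  · intro n hn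
    obtain ⟨k, rfl⟩ : ∃ k, n = k + 1 := ⟨n - 1, by omega⟩
    unfold dig
    have e1 : k + 1 + 1 - 1 = k + 1 := by omega
    have e2 : k + 1 + 1 + 32 - 1 = k + 33 := by omega
    rw [e1, e2, rem_periodic h1 h2 h3]
  · rintro m' p' ⟨hp', hper⟩
    constructor
    · by_contra hm
      have hm0 : m' = 0 := by omega
      subst hm0
      have hall : ∀ k : ℕ, dig β (1 + k * p') = dig β 1 := by
        intro k
        induction k with
        | zero => simp
        | succ k ih =>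
          have := hper (1 + k * p') (by omega)
          simp only [add_zero] at this
          rw [← ih, this]
          congr 1
          ring
      have h4 := hall 32
      obtain ⟨q, rfl⟩ : ∃ q, p' = q + 1 := ⟨p' - 1, by omega⟩
      have e1 : 1 + 32 * (q + 1) = 31 + 2 + 32 * q := by ring
      rw [e1, dig_eq h1 h2 h3 31 q (by norm_num), dig_small h1 h2 h3 1 le_rfl (by norm_num)] at h4
      revert h4
      decide
    · by_contra hp
      push Not at hp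
      obtain ⟨j, hj⟩ := mismatch ⟨p' - 1, by omega⟩
      apply hj
      have e0 : ((j : ℕ) + ((⟨p' - 1, by omega⟩ : Fin 31) : ℕ) + 1) = j + p' := by
        simp only
        omega
      rw [e0]
      have h4 := hper ((j : ℕ) + 2 + 32 * m' + 31 * m') (by omega)
      have hj32 := j.2
      have e1 : (j : ℕ) + 2 + 32 * m' + 31 * m' + m' = j + 2 + 32 * (2 * m') := by ring
      have e2 : (j : ℕ) + 2 + 32 * m' + 31 * m' + m' + p' =
          ((j + p') % 32) + 2 + 32 * (2 * m' + (j + p') / 32) := by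
        omega
      rw [e1, dig_eq h1 h2 h3 _ _ hj32] at h4
      rw [h4]
      rw [← e1, e2, dig_eq h1 h2 h3 _ _ (Nat.mod_lt _ (by norm_num))]

/-! ### the conjugates -/

lemma root_between (a b : ℝ) (hab : a ≤ b)
    (h : (0 ≤ a ^ 3 - 10 * a ^ 2 - 9 * a + 23 ∧ b ^ 3 - 10 * b ^ 2 - 9 * b + 23 ≤ 0) ∨
      (a ^ 3 - 10 * a ^ 2 - 9 * a + 23 ≤ 0 ∧ 0 ≤ b ^ 3 - 10 * b ^ 2 - 9 * b + 23)) :
    ∃ y : ℝ, a ≤ y ∧ y ≤ b ∧ y ^ 3 - 10 * y ^ 2 - 9 * y + 23 = 0 := by
  have hcont : ContinuousOn (fun x : ℝ => x ^ 3 - 10 * x ^ 2 - 9 * x + 23) (Set.Icc a b) := by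
    fun_prop
  rcases h with h | h
  · obtain ⟨x, hx, hx'⟩ := intermediate_value_Icc' hab hcont
      (show (0 : ℝ) ∈ Set.Icc _ _ from ⟨h.2, h.1⟩)
    exact ⟨x, hx.1, hx.2, hx'⟩
  · obtain ⟨x, hx, hx'⟩ := intermediate_value_Icc hab hcont
      (show (0 : ℝ) ∈ Set.Icc _ _ from ⟨h.1, h.2⟩)
    exact ⟨x, hx.1, hx.2, hx'⟩

/-- a complex number with `z + 1/z` real of absolute value less than `2` has norm one -/
lemma norm_one_of (z : ℂ) (y : ℝ) (hz : z ^ 2 - y * z + 1 = 0) (hy : y ^ 2 < 4) : ‖z‖ = 1 := by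
  have hre := congrArg Complex.re hz
  have him := congrArg Complex.im hz
  simp only [pow_two, Complex.add_re, Complex.sub_re, Complex.mul_re, Complex.ofReal_re,
    Complex.ofReal_im, Complex.one_re, Complex.zero_re, Complex.add_im, Complex.sub_im,
    Complex.mul_im, Complex.one_im, Complex.zero_im, zero_mul, sub_zero, add_zero] at hre him
  have h1 : z.im * (2 * z.re - y) = 0 := by linear_combination him
  have hn : z.re ^ 2 + z.im ^ 2 = 1 := by
    rcases mul_eq_zero.1 h1 with h2 | h2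
    · exfalso
      rw [h2] at hre
      nlinarith [sq_nonneg (2 * z.re - y)]
    · have h3 : y = 2 * z.re := by linarith
      rw [h3] at hre
      nlinarith
  have h4 : ‖z‖ ^ 2 = 1 := by
    rw [Complex.sq_norm, Complex.normSq_apply]
    nlinarith
  have h5 := norm_nonneg z
  nlinarith

include h1 h2 h3 in
lemma conj_cases (z : ℂ) (hz : z ^ 6 - 10 * z ^ 5 - 6 * z ^ 4 + 3 * z ^ 3 - 6 * z ^ 2 - 10 * z + 1
    = 0) : z = β ∨ ‖z‖ ≤ 1 := by
  have hβ : (10 : ℝ) < β := by linarith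
  have hβ0 : β ≠ 0 := by positivity
  obtain ⟨y₂, ha₂, hb₂, hy₂⟩ := root_between 1 2 (by norm_num) (Or.inl (by norm_num))
  obtain ⟨y₃, ha₃, hb₃, hy₃⟩ := root_between (-2) (-1) (by norm_num) (Or.inr (by norm_num))
  obtain ⟨y₁, hy₁⟩ : ∃ y, y = β + β⁻¹ := ⟨_, rfl⟩
  have hy₁' : y₁ ^ 3 - 10 * y₁ ^ 2 - 9 * y₁ + 23 = 0 := by
    have : β ^ 3 * (y₁ ^ 3 - 10 * y₁ ^ 2 - 9 * y₁ + 23) = 0 := by
      rw [hy₁]
      field_simp
      linear_combination h3
    exact (mul_eq_zero.1 this).resolve_left (pow_ne_zero 3 hβ0)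
  have hy₁big : 10 < y₁ := by
    rw [hy₁]
    have : 0 < β⁻¹ := by positivity
    linarith
  -- symmetric functions
  have d12 : y₁ ^ 2 + y₁ * y₂ + y₂ ^ 2 - 10 * (y₁ + y₂) - 9 = 0 := by
    have : (y₁ - y₂) * (y₁ ^ 2 + y₁ * y₂ + y₂ ^ 2 - 10 * (y₁ + y₂) - 9) = 0 := by
      linear_combination hy₁' - hy₂
    exact (mul_eq_zero.1 this).resolve_left (by intro h; linarith)
  have d13 : y₁ ^ 2 + y₁ * y₃ + y₃ ^ 2 - 10 * (y₁ + y₃) - 9 = 0 := by
    have : (y₁ - y₃) * (y₁ ^ 2 + y₁ * y₃ + y₃ ^ 2 - 10 * (y₁ + y₃) - 9) = 0 := by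
      linear_combination hy₁' - hy₃
    exact (mul_eq_zero.1 this).resolve_left (by intro h; linarith)
  have s1 : y₁ + y₂ + y₃ = 10 := by
    have : (y₂ - y₃) * (y₁ + y₂ + y₃ - 10) = 0 := by linear_combination d12 - d13
    linarith [(mul_eq_zero.1 this).resolve_left (by intro h; linarith)]
  have hz0 : z ≠ 0 := by
    rintro rfl
    norm_num at hz
  obtain ⟨y, hy⟩ : ∃ y, y = z + z⁻¹ := ⟨_, rfl⟩
  have hyz : y ^ 3 - 10 * y ^ 2 - 9 * y + 23 = 0 := by
    have : z ^ 3 * (y ^ 3 - 10 * y ^ 2 - 9 * y + 23) = 0 := by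
      rw [hy]
      field_simp
      linear_combination hz
    exact (mul_eq_zero.1 this).resolve_left (pow_ne_zero 3 hz0)
  have hfac : (y - y₁) * ((y - y₂) * (y - y₃)) = 0 := by
    have c1 : (y₁ : ℂ) ^ 3 - 10 * y₁ ^ 2 - 9 * y₁ + 23 = 0 := by exact_mod_cast hy₁'
    have c2 : (y₁ : ℂ) ^ 2 + y₁ * y₂ + y₂ ^ 2 - 10 * (y₁ + y₂) - 9 = 0 := by exact_mod_cast d12
    have c3 : (y₁ : ℂ) + y₂ + y₃ = 10 := by exact_mod_cast s1
    have c4 : (y₃ : ℂ) = 10 - y₁ - y₂ := by linear_combination c3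
    rw [c4]
    linear_combination hyz - c1 + (-y + y₁) * c2
  have hzy : z ^ 2 - y * z + 1 = 0 := by
    rw [hy]; field_simp; ring
  rcases mul_eq_zero.1 hfac with h | h
  · have hyy : y = y₁ := sub_eq_zero.1 h
    have h5 : (z - β) * (z * β - 1) = 0 := by
      have hb : (β : ℂ) ≠ 0 := by exact_mod_cast hβ0
      have h6 : (y₁ : ℂ) = β + (β : ℂ)⁻¹ := by rw [hy₁]; push_cast; rfl
      rw [hyy, h6] at hzy
      have h7 : β * (z ^ 2 - (β + (β : ℂ)⁻¹) * z + 1) = 0 := by rw [hzy, mul_zero]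
      have h8 : (β : ℂ) * (β : ℂ)⁻¹ = 1 := mul_inv_cancel₀ hb
      linear_combination h7 + z * h8
    rcases mul_eq_zero.1 h5 with h6 | h6
    · left; exact sub_eq_zero.1 h6
    · right
      have h7 : z * β = 1 := sub_eq_zero.1 h6
      have h8 := congrArg norm h7
      rw [norm_mul, norm_one, Complex.norm_real, Real.norm_eq_abs, abs_of_pos (by linarith)] at h8
      have := norm_nonneg z
      nlinarith
  · right
    rcases mul_eq_zero.1 h with h' | h'
    · have hyy : y = y₂ := sub_eq_zero.1 h'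
      rw [hyy] at hzy
      refine (norm_one_of z y₂ hzy ?_).le
      have hne2 : y₂ ≠ 2 := by rintro rfl; norm_num at hy₂
      have hlt2 : y₂ < 2 := lt_of_le_of_ne hb₂ hne2
      nlinarith
    · have hyy : y = y₃ := sub_eq_zero.1 h'
      rw [hyy] at hzy
      refine (norm_one_of z y₃ hzy ?_).le
      have hne2 : y₃ ≠ -2 := by rintro rfl; norm_num at hy₃
      have hlt2 : -2 < y₃ := lt_of_le_of_ne ha₃ (Ne.symm hne2)
      nlinarith

lemma exists_conj : ∃ z : ℂ, z ^ 6 - 10 * z ^ 5 - 6 * z ^ 4 + 3 * z ^ 3 - 6 * z ^ 2 - 10 * z + 1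
    = 0 ∧ ‖z‖ = 1 := by
  obtain ⟨y₂, ha₂, hb₂, hy₂⟩ := root_between 1 2 (by norm_num) (Or.inl (by norm_num))
  have hne2 : y₂ ≠ 2 := by rintro rfl; norm_num at hy₂
  have hlt2 : y₂ < 2 := lt_of_le_of_ne hb₂ hne2
  obtain ⟨z, hz⟩ : ∃ z : ℂ, z ^ 2 - y₂ * z + 1 = 0 := by
    obtain ⟨s, hs⟩ := IsAlgClosed.exists_pow_nat_eq ((y₂ : ℂ) ^ 2 - 4) (n := 2) (by norm_num)
    refine ⟨(y₂ + s) / 2, ?_⟩
    linear_combination hs / 4
  refine ⟨z, ?_, norm_one_of z y₂ hz (by nlinarith)⟩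
  have c : (y₂ : ℂ) ^ 3 - 10 * y₂ ^ 2 - 9 * y₂ + 23 = 0 := by exact_mod_cast hy₂
  have hz2 : z ^ 2 + 1 = y₂ * z := by linear_combination hz
  have key : z ^ 6 - 10 * z ^ 5 - 6 * z ^ 4 + 3 * z ^ 3 - 6 * z ^ 2 - 10 * z + 1 =
      (z ^ 2 + 1) ^ 3 - 10 * (z ^ 2 + 1) ^ 2 * z - 9 * (z ^ 2 + 1) * z ^ 2 + 23 * z ^ 3 := by ring
  rw [key, hz2]
  linear_combination z ^ 3 * c

include h3 in
lemma aeval_P : aeval β P = 0 := by
  unfold P
  simp only [map_add, map_sub, map_mul, map_pow, aeval_X, map_one, map_ofNat]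
  exact h3

lemma aeval_P_complex (z : ℂ) : aeval z P =
    z ^ 6 - 10 * z ^ 5 - 6 * z ^ 4 + 3 * z ^ 3 - 6 * z ^ 2 - 10 * z + 1 := by
  unfold P
  simp only [map_add, map_sub, map_mul, map_pow, aeval_X, map_one, map_ofNat]

include h3 in
lemma integral_beta : IsIntegral ℤ β := ⟨P, P_monic, by
  have := aeval_P h3
  rwa [aeval_def] at this⟩

include h3 in
lemma minpoly_int : minpoly ℤ β = P := by
  have hint := integral_beta h3
  have hdvd := minpoly.isIntegrallyClosed_dvd hint (aeval_P h3)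
  have hirr := P_irreducible
  have hassoc : Associated (minpoly ℤ β) P := by
    refine (minpoly.irreducible hint).associated_of_dvd hirr hdvd
  exact Polynomial.eq_of_monic_of_associated (minpoly.monic hint) P_monic hassoc

include h3 in
lemma minpoly_rat : minpoly ℚ β = P.map (algebraMap ℤ ℚ) := by
  rw [minpoly.isIntegrallyClosed_eq_field_fractions' ℚ (integral_beta h3), minpoly_int h3]

include h3 in
lemma aeval_minpoly (z : ℂ) : aeval z (minpoly ℚ β) =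
    z ^ 6 - 10 * z ^ 5 - 6 * z ^ 4 + 3 * z ^ 3 - 6 * z ^ 2 - 10 * z + 1 := by
  rw [minpoly_rat h3, aeval_map_algebraMap, aeval_P_complex]

include h1 h2 h3 in
lemma salem : IsSalem β where
  one_lt := by linarith
  integral := integral_beta h3
  conj_le := by
    intro z hz hne
    rw [aeval_minpoly h3] at hz
    exact (conj_cases h1 h2 h3 z hz).resolve_left hne
  conj_eq := by
    obtain ⟨z, hz, hz'⟩ := exists_conj
    exact ⟨z, by rw [aeval_minpoly h3, hz], hz'⟩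

/-! ### the co-factor -/

/-- the co-factor -/
noncomputable def Q : ℤ[X] := X ^ 27 + X ^ 25 - X ^ 24 + 2 * X ^ 20 - X ^ 19 + X ^ 18 -
  2 * X ^ 17 + X ^ 16 + X ^ 14 + X ^ 13 - X ^ 12 + X ^ 11 - 2 * X ^ 10 + 2 * X ^ 9 - X ^ 8 +
  2 * X ^ 7 - X ^ 3 + X ^ 2 + 1

lemma Q_natDegree : Q.natDegree = 27 := by unfold Q; compute_degree!

lemma Q_nonreciprocal : Q.reverse ≠ Q := by
  intro h
  have h9 : Q.reverse.coeff 9 = Q.coeff 18 := by
    rw [Polynomial.coeff_reverse, Q_natDegree]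
    rfl
  rw [h] at h9
  have c9 : Q.coeff 9 = 2 := by
    unfold Q
    simp [coeff_X_pow, coeff_one]
  have c18 : Q.coeff 18 = 1 := by
    unfold Q
    simp [coeff_X_pow, coeff_one]
  rw [c9, c18] at h9
  norm_num at h9

include h1 h2 h3 in
lemma companion_eq : companion β 1 32 = P * Q := by
  have hd : ∀ i ∈ Finset.Ico 1 34, (C (dig β i) * X ^ (33 - i) : ℤ[X]) =
      C (D.getD (i - 1) 0) * X ^ (33 - i) := by
    intro i hi
    rw [Finset.mem_Ico] at hi
    rw [dig_small h1 h2 h3 i hi.1 (by omega)]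
  have e1 : Finset.Icc 1 33 = Finset.Ico 1 34 := by decide
  have e2 : Pk β 33 = X ^ 33 - ∑ i ∈ Finset.range 33, C (D.getD i 0) * X ^ (32 - i) := by
    unfold Pk
    rw [e1, Finset.sum_congr rfl hd, Finset.sum_Ico_eq_sum_range]
    refine congrArg (fun t => X ^ 33 - t) (Finset.sum_congr rfl ?_)
    intro i _
    have e3 : 1 + i - 1 = i := by omega
    have e4 : 33 - (1 + i) = 32 - i := by omega
    rw [e3, e4]
  have e5 : Pk β 1 = X - 10 := by
    unfold Pk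
    rw [Finset.Icc_self, Finset.sum_singleton, dig_small h1 h2 h3 1 le_rfl (by norm_num)]
    have : D.getD (1 - 1) 0 = 10 := by decide
    rw [this]
    simp only [pow_one, Nat.sub_self, pow_zero, mul_one]
    rfl
  unfold companion
  have e6 : 1 + 32 = 33 := rfl
  rw [e6, e2, e5]
  simp only [Finset.sum_range_succ, Finset.sum_range_zero]
  simp only [D, List.getD_cons_zero, List.getD_cons_succ]
  simp only [map_ofNat, map_zero, map_one]
  unfold P Q
  norm_num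
  ring

end beta

/-- There is a Salem number `β` of degree `6` whose greedy expansion of `1` is eventually periodic
with preperiod length `1` (and some period length `p`), and whose co-factor `Q`, defined by
`R = P_{1+p} - P_1 = (minimal polynomial of β) * Q`, is not reciprocal. -/
theorem result : ∃ β : ℝ, IsSalem β ∧ (minpoly ℚ β).natDegree = 6 ∧ ∃ p : ℕ,
    HasLengths β 1 p ∧ ∃ Q : ℤ[X], companion β 1 p = minpoly ℤ β * Q ∧ Q.reverse ≠ Q := by
  obtain ⟨β, h1, h2, h3⟩ := exists_beta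
  refine ⟨β, salem h1 h2 h3, ?_, 32, lengths h1 h2 h3, Q, ?_, Q_nonreciprocal⟩
  · rw [minpoly_rat h3, P_monic.natDegree_map, P_natDegree]
  · rw [companion_eq h1 h2 h3, minpoly_int h3]

end Pool.Agent.Results.MP_9c9d6b_nt.NonReciprocal
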